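import Pool.Agent.W712.WR.Stm

/-!
Project WR (helper712), part CHAIN: covering a line by good cells.
-/

set_option autoImplicit false

namespace Pool.Agent.W991.WR.Chain

open W712.WR Finset

/-! ### The abstract covering argument -/

/-- a run of small cells with slopes below `v`, up to the left end of the sticky zone of `v` -/
lemma run {V : Finset ℝ} {c : ℝ → ℝ} {S L G ρ : ℝ} (hρ : 0 < ρ)
    (hc : ∀ v ∈ V, ∀ w ∈ V, v ≤ w → c v ≤ c w)
    (Cl : ℝ → ℝ → ℝ → Prop) (P : ℝ → ℝ → ℝ → Prop)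
    (hns : ∀ σ p p', σ < S → L ≤ p → p ≤ p' → p' ≤ p + ρ →
      (∀ v ∈ V, v ≠ σ ∧ (v < σ → c v + G * ρ ≤ p) ∧ (σ < v → p' ≤ c v - G * ρ)) → Cl σ p p')
    (hext : ∀ q p σ p' σ', P q p σ → σ < σ' → σ' ≤ S → L ≤ p → p ≤ p' → Cl σ' p p' → P p p' σ')
    (v : ℝ) (hv : v ∈ V) (hvS : v ≤ S) (lam p0 : ℝ) (hp0 : L ≤ p0)
    (hw : ∀ w ∈ V, w < v → w ≤ lam ∧ c w + G * ρ ≤ p0) :
    ∀ (N : ℕ) (q p σ : ℝ), P q p σ → p0 ≤ p → p ≤ c v - G * ρ → c v - G * ρ - p ≤ N * ρ →
      lam ≤ σ → σ < v → ∃ q' σ', σ' < v ∧ P q' (c v - G * ρ) σ' := by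
  intro N
  induction N with
  | zero =>
    intro q p σ hP _ hp1 hp2 _ hσ
    have : p = c v - G * ρ := by
      simp only [Nat.cast_zero, zero_mul] at hp2
      linarith
    exact ⟨q, σ, hσ, this ▸ hP⟩
  | succ N ih =>
    intro q p σ hP hpp hp1 hp2 hl hσ
    set p1 := min (p + ρ) (c v - G * ρ) with hp1def
    set σ1 := (σ + v) / 2 with hσ1
    have h1 : p ≤ p1 := le_min (by linarith) hp1
    have h2 : p1 ≤ p + ρ := min_le_left _ _
    have h3 : p1 ≤ c v - G * ρ := min_le_right _ _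
    have hσσ : σ < σ1 := by rw [hσ1]; linarith
    have hσv : σ1 < v := by rw [hσ1]; linarith
    have hcell : Cl σ1 p p1 := by
      refine hns σ1 p p1 (lt_of_lt_of_le hσv hvS) (hp0.trans hpp) h1 h2 ?_
      intro w hwV
      by_cases hwv : w < v
      · obtain ⟨h4, h5⟩ := hw w hwV hwv
        have h6 : w < σ1 := by linarith
        exact ⟨h6.ne, fun _ => by linarith, fun h => absurd h (not_lt.mpr h6.le)⟩
      · push Not at hwv
        have h6 : σ1 < w := lt_of_lt_of_le hσv hwv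
        refine ⟨h6.ne', fun h => absurd h (not_lt.mpr h6.le), fun _ => ?_⟩
        have := hc v hv w hwV hwv
        linarith
    have hP1 : P p p1 σ1 :=
      hext q p σ p1 σ1 hP hσσ (hσv.le.trans hvS) (hp0.trans hpp) h1 hcell
    refine ih p p1 σ1 hP1 (hpp.trans h1) h3 ?_ (hl.trans hσσ.le) hσv
    push_cast at hp2
    rcases min_choice (p + ρ) (c v - G * ρ) with h | h
    · rw [← hp1def] at h
      rw [h]; linarith
    · rw [← hp1def] at h
      rw [h]
      have : 0 ≤ (N : ℝ) * ρ := by positivity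
      linarith

/-- reaching the sticky zone of `v` -/
lemma reach {V : Finset ℝ} {c : ℝ → ℝ} {S L G ρ : ℝ} (hρ : 0 < ρ) (hG : 0 < G)
    (hVS : ∀ v ∈ V, v ≤ S)
    (hgap : ∀ v ∈ V, ∀ w ∈ V, v < w → c v + 2 * (G * ρ) ≤ c w)
    (Cl : ℝ → ℝ → ℝ → Prop) (P : ℝ → ℝ → ℝ → Prop)
    (hst : ∀ v ∈ V, ∀ p p', L ≤ p → p ≤ p' → c v - G * ρ ≤ p → p' ≤ c v + G * ρ → Cl v p p')
    (hns : ∀ σ p p', σ < S → L ≤ p → p ≤ p' → p' ≤ p + ρ →
      (∀ v ∈ V, v ≠ σ ∧ (v < σ → c v + G * ρ ≤ p) ∧ (σ < v → p' ≤ c v - G * ρ)) → Cl σ p p')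
    (hstart : ∀ σ p, L ≤ p → σ ≤ S → Cl σ L p → ∃ q, q < L ∧ P q p σ)
    (hext : ∀ q p σ p' σ', P q p σ → σ < σ' → σ' ≤ S → L ≤ p → p ≤ p' → Cl σ' p p' → P p p' σ')
    (k : ℕ) : ∀ v ∈ V, (V.filter (fun w => w < v)).card ≤ k → L < c v - G * ρ →
      ∃ q σ, σ < v ∧ P q (c v - G * ρ) σ := by
  classical
  have hGρ : 0 < G * ρ := mul_pos hG hρ
  have hc : ∀ v ∈ V, ∀ w ∈ V, v ≤ w → c v ≤ c w := by
    intro v hv w hw h
    rcases h.eq_or_lt with rfl | h
    · exact le_rfl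
    · have := hgap v hv w hw h
      linarith
  induction k with
  | zero =>
    intro v hv hcard hL
    -- no smaller element
    have hno : ∀ w ∈ V, ¬ w < v := by
      intro w hw h
      have : w ∈ V.filter (fun w => w < v) := Finset.mem_filter.mpr ⟨hw, h⟩
      rw [Finset.card_eq_zero.mp (Nat.le_zero.mp hcard)] at this
      exact absurd this (Finset.notMem_empty _)
    set p1 := min (L + ρ) (c v - G * ρ) with hp1def
    have h1 : L ≤ p1 := le_min (by linarith) hL.le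
    have h2 : p1 ≤ L + ρ := min_le_left _ _
    have h3 : p1 ≤ c v - G * ρ := min_le_right _ _
    have hcell : Cl (v - 1) L p1 := by
      refine hns _ _ _ (by linarith [hVS v hv]) le_rfl h1 h2 ?_
      intro w hwV
      have h4 : v ≤ w := not_lt.mp (hno w hwV)
      have h5 : v - 1 < w := by linarith
      refine ⟨h5.ne', fun h => absurd h (not_lt.mpr h5.le), fun _ => ?_⟩
      have := hc v hv w hwV h4
      linarith
    obtain ⟨q, _, hP⟩ := hstart (v - 1) p1 h1 (by linarith [hVS v hv]) hcell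
    obtain ⟨N, hN⟩ := exists_nat_ge ((c v - G * ρ - p1) / ρ)
    refine run hρ hc Cl P hns hext v hv (hVS v hv) (v - 1) L le_rfl
      (fun w hw h => absurd h (hno w hw)) N q p1 (v - 1) hP h1 h3 ?_ le_rfl (by linarith)
    rwa [div_le_iff₀ hρ] at hN
  | succ k ih =>
    intro v hv hcard hL
    by_cases hE : ∃ w ∈ V, w < v ∧ L < c w + G * ρ
    · -- the predecessor of `v`
      have hne : (V.filter (fun w => w < v)).Nonempty := by
        obtain ⟨w, hw, hwv, _⟩ := hE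
        exact ⟨w, Finset.mem_filter.mpr ⟨hw, hwv⟩⟩
      set u := (V.filter (fun w => w < v)).max' hne with hu
      have hum : u ∈ V.filter (fun w => w < v) := Finset.max'_mem _ _
      rw [Finset.mem_filter] at hum
      obtain ⟨huV, huv⟩ := hum
      have hmax : ∀ w ∈ V, w < v → w ≤ u := fun w hw h =>
        Finset.le_max' _ _ (Finset.mem_filter.mpr ⟨hw, h⟩)
      have hLu : L < c u + G * ρ := by
        obtain ⟨w, hw, hwv, hLw⟩ := hE
        have := hc w hw u huV (hmax w hw hwv)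
        linarith
      have hgapu := hgap u huV v hv huv
      -- the sticky cell of `u`
      have hsticky : ∃ q, P q (c u + G * ρ) u := by
        by_cases hcu : c u - G * ρ ≤ L
        · obtain ⟨q, _, hq⟩ := hstart u (c u + G * ρ) hLu.le (hVS u huV)
            (hst u huV L (c u + G * ρ) le_rfl hLu.le hcu le_rfl)
          exact ⟨q, hq⟩
        · push Not at hcu
          have hcard' : (V.filter (fun w => w < u)).card ≤ k := by
            have hss : V.filter (fun w => w < u) ⊂ V.filter (fun w => w < v) := by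
              rw [Finset.ssubset_iff_of_subset]
              · exact ⟨u, Finset.mem_filter.mpr ⟨huV, huv⟩, fun h =>
                  absurd (Finset.mem_filter.mp h).2 (lt_irrefl _)⟩
              · intro w hw
                rw [Finset.mem_filter] at hw ⊢
                exact ⟨hw.1, hw.2.trans huv⟩
            have := Finset.card_lt_card hss
            omega
          obtain ⟨q, σ, hσ, hP⟩ := ih u huV hcard' hcu
          exact ⟨_, hext q (c u - G * ρ) σ (c u + G * ρ) u hP hσ (hVS u huV) hcu.le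
            (by linarith) (hst u huV _ _ hcu.le (by linarith) le_rfl le_rfl)⟩
      obtain ⟨q, hP⟩ := hsticky
      obtain ⟨N, hN⟩ := exists_nat_ge ((c v - G * ρ - (c u + G * ρ)) / ρ)
      refine run hρ hc Cl P hns hext v hv (hVS v hv) u (c u + G * ρ) hLu.le
        (fun w hw h => ⟨hmax w hw h, ?_⟩) N q (c u + G * ρ) u hP le_rfl (by linarith) ?_ le_rfl huv
      · have := hc w hw u huV (hmax w hw h)
        linarith
      · rwa [div_le_iff₀ hρ] at hN
    · push Not at hE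
      -- a slope just below `v`
      obtain ⟨lam, hlam, hlamw⟩ : ∃ lam, lam < v ∧ ∀ w ∈ V, w < v → w ≤ lam := by
        by_cases hne : (V.filter (fun w => w < v)).Nonempty
        · refine ⟨(V.filter (fun w => w < v)).max' hne, ?_, fun w hw h =>
            Finset.le_max' _ _ (Finset.mem_filter.mpr ⟨hw, h⟩)⟩
          exact (Finset.mem_filter.mp (Finset.max'_mem _ hne)).2
        · refine ⟨v - 1, by linarith, fun w hw h => ?_⟩
          exact absurd ⟨w, Finset.mem_filter.mpr ⟨hw, h⟩⟩ hne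
      set p1 := min (L + ρ) (c v - G * ρ) with hp1def
      have h1 : L ≤ p1 := le_min (by linarith) hL.le
      have h2 : p1 ≤ L + ρ := min_le_left _ _
      have h3 : p1 ≤ c v - G * ρ := min_le_right _ _
      set σ1 := (lam + v) / 2 with hσ1
      have h6 : lam < σ1 := by rw [hσ1]; linarith
      have h7 : σ1 < v := by rw [hσ1]; linarith
      have hcell : Cl σ1 L p1 := by
        refine hns _ _ _ (lt_of_lt_of_le h7 (hVS v hv)) le_rfl h1 h2 ?_
        intro w hwV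
        by_cases hwv : w < v
        · have h8 : w < σ1 := lt_of_le_of_lt (hlamw w hwV hwv) h6
          exact ⟨h8.ne, fun _ => hE w hwV hwv, fun h => absurd h (not_lt.mpr h8.le)⟩
        · push Not at hwv
          have h8 : σ1 < w := lt_of_lt_of_le h7 hwv
          refine ⟨h8.ne', fun h => absurd h (not_lt.mpr h8.le), fun _ => ?_⟩
          have := hc v hv w hwV hwv
          linarith
      obtain ⟨q, _, hP⟩ := hstart σ1 p1 h1 (h7.le.trans (hVS v hv)) hcell
      obtain ⟨N, hN⟩ := exists_nat_ge ((c v - G * ρ - p1) / ρ)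
      refine run hρ hc Cl P hns hext v hv (hVS v hv) lam L le_rfl
        (fun w hw h => ⟨hlamw w hw h, hE w hw h⟩) N q p1 σ1 hP h1 h3 ?_ h6.le h7
      rwa [div_le_iff₀ hρ] at hN

/-- the covering argument -/
lemma cover {V : Finset ℝ} {c : ℝ → ℝ} {S L G ρ : ℝ} (hρ : 0 < ρ) (hG : 0 < G)
    (hVS : ∀ v ∈ V, v ≤ S) (hS : S ∈ V)
    (hgap : ∀ v ∈ V, ∀ w ∈ V, v < w → c v + 2 * (G * ρ) ≤ c w)
    (Cl : ℝ → ℝ → ℝ → Prop) (P : ℝ → ℝ → ℝ → Prop)
    (hst : ∀ v ∈ V, ∀ p p', L ≤ p → p ≤ p' → c v - G * ρ ≤ p → p' ≤ c v + G * ρ → Cl v p p')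
    (hns : ∀ σ p p', σ < S → L ≤ p → p ≤ p' → p' ≤ p + ρ →
      (∀ v ∈ V, v ≠ σ ∧ (v < σ → c v + G * ρ ≤ p) ∧ (σ < v → p' ≤ c v - G * ρ)) → Cl σ p p')
    (hstart : ∀ σ p, L ≤ p → σ ≤ S → Cl σ L p → ∃ q, q < L ∧ P q p σ)
    (hext : ∀ q p σ p' σ', P q p σ → σ < σ' → σ' ≤ S → L ≤ p → p ≤ p' → Cl σ' p p' → P p p' σ')
    (hL : L ≤ c S) (pf : ℝ) (hpf : c S ≤ pf) (hpf2 : pf ≤ c S + G * ρ) :
    ∃ q, q < c S ∧ P q pf S := by
  have hGρ : 0 < G * ρ := mul_pos hG hρ
  by_cases h : c S - G * ρ ≤ L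
  · obtain ⟨q, hq, hP⟩ := hstart S pf (hL.trans hpf) le_rfl
      (hst S hS L pf le_rfl (hL.trans hpf) h hpf2)
    exact ⟨q, lt_of_lt_of_le hq hL, hP⟩
  · push Not at h
    obtain ⟨q, σ, hσ, hP⟩ := reach hρ hG hVS hgap Cl P hst hns hstart hext
      (V.filter (fun w => w < S)).card S hS le_rfl h
    exact ⟨c S - G * ρ, by linarith, hext q _ σ pf S hP hσ le_rfl h.le (by linarith)
      (hst S hS _ _ h.le (by linarith) le_rfl hpf2)⟩

/-! ### The functionals -/

lemma pr_succ (n : ℕ) (u v : ℕ → ℝ) : pr (n + 1) u v = pr n u v + u n * v n :=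
  Finset.sum_range_succ _ _

lemma pr_update (n : ℕ) (u v : ℕ → ℝ) (x : ℝ) :
    pr n u (Function.update v n x) = pr n u v := by
  refine Finset.sum_congr rfl fun i hi => ?_
  rw [Finset.mem_range] at hi
  rw [Function.update_of_ne hi.ne]

/-- the box of a node -/
def Box (r : ℕ) (a b τ : ℕ → ℝ) : Prop := ∀ i ≤ r, a i ≤ τ i ∧ τ i ≤ b i

/-- the zero of the functional `ν` in the last variable -/
noncomputable def bt (r : ℕ) (ν t : ℕ → ℝ) : ℝ := -(pr (r + 1) ν t) / ν (r + 1)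

lemma pr_eq (r : ℕ) (ν t : ℕ → ℝ) (h : ν (r + 1) ≠ 0) :
    pr (r + 1 + 1) ν t = ν (r + 1) * (t (r + 1) - bt r ν t) := by
  rw [pr_succ, bt]
  field_simp
  ring

lemma bt_update (r : ℕ) (ν t : ℕ → ℝ) (x : ℝ) :
    bt r ν (Function.update t (r + 1) x) = bt r ν t := by
  rw [bt, bt, pr_update]

/-- functionals in `D` with nonzero coefficient of the last variable -/
structure Bs (D : Finset (ℕ → ℝ)) (r : ℕ) (ν : ℕ → ℝ) : Prop where
  mem : ν ∈ D
  supp : Supp (r + 1 + 1) ν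
  ne : ν (r + 1) ≠ 0

lemma elim_fun {n : ℕ} {D : Finset (ℕ → ℝ)} {C : ℝ} (hD : Good n D C) {r : ℕ} {ν μ : ℕ → ℝ}
    (hν : Bs D r ν) (hμ : Bs D r μ) :
    ∃ m ∈ D, Supp (r + 1) m ∧ ∀ t, pr (r + 1) m t = bt r μ t - bt r ν t := by
  refine ⟨_, hD.elim (r + 1) ν hν.mem μ hμ.mem hν.supp hμ.supp hν.ne hμ.ne, ?_, ?_⟩
  · intro i hi
    simp only
    rcases hi.eq_or_lt with rfl | h
    · rw [div_self hν.ne, div_self hμ.ne, sub_self]
    · rw [hν.supp i h, hμ.supp i h]
      simp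
  · intro t
    rw [bt, bt, pr, pr, pr]
    simp only [sub_mul, Finset.sum_sub_distrib]
    have h1 : ∀ κ : ℕ → ℝ, ∑ i ∈ Finset.range (r + 1), κ i / κ (r + 1) * t i =
        (∑ i ∈ Finset.range (r + 1), κ i * t i) / κ (r + 1) := by
      intro κ
      rw [Finset.sum_div]
      exact Finset.sum_congr rfl fun i _ => by ring
    rw [h1, h1]
    ring

section node

variable {n : ℕ} {D : Finset (ℕ → ℝ)} {C : ℝ} (hD : Good n D C) {r : ℕ} (hr : r + 1 < n)
  {A : ℝ} {s a b : ℕ → ℝ} {ρ : ℝ} (hI : Inv D r A s a b ρ)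

include hD hI

lemma bt_zero {ν μ : ℕ → ℝ} (hν : Bs D r ν) (hμ : Bs D r μ) (h : bt r ν s = bt r μ s)
    {τ : ℕ → ℝ} (hτ : Box r a b τ) : |bt r μ τ - bt r ν τ| ≤ ρ := by
  obtain ⟨m, hm, hms, hmt⟩ := elim_fun hD hν hμ
  rw [← hmt]
  exact hI.zero m hm hms (by rw [hmt, h, sub_self]) τ hτ

lemma bt_one {ν μ : ℕ → ℝ} (hν : Bs D r ν) (hμ : Bs D r μ) (h : bt r ν s < bt r μ s)
    {τ : ℕ → ℝ} (hτ : Box r a b τ) : A * ρ ≤ bt r μ τ - bt r ν τ := by
  obtain ⟨m, hm, hms, hmt⟩ := elim_fun hD hν hμ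
  rw [← hmt]
  exact hI.one m hm hms (by rw [hmt]; linarith) τ hτ

omit hD in
lemma box_a : Box r a b a := fun i hi => ⟨le_rfl, hI.le i hi⟩

include hr in
lemma bt_var {ν : ℕ → ℝ} (hν : Bs D r ν) {τ : ℕ → ℝ} (hτ : Box r a b τ) :
    |bt r ν τ - bt r ν a| ≤ C ^ 2 * n * ρ := by
  have hC : 0 < C := lt_of_lt_of_le one_pos hD.one_le
  have h1 : bt r ν τ - bt r ν a =
      ∑ i ∈ Finset.range (r + 1), -(ν i / ν (r + 1)) * (τ i - a i) := by
    rw [bt, bt, pr, pr, ← sub_div, ← neg_add_eq_sub, neg_neg, ← sub_eq_add_neg,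
      ← Finset.sum_sub_distrib, Finset.sum_div]
    exact Finset.sum_congr rfl fun i _ => by ring
  rw [h1]
  have h2 : ∀ i ∈ Finset.range (r + 1), |-(ν i / ν (r + 1)) * (τ i - a i)| ≤ C ^ 2 * ρ := by
    intro i hi
    rw [Finset.mem_range] at hi
    have hi' : i ≤ r := by omega
    rw [abs_mul, abs_neg, abs_div]
    have h3 : |ν i| / |ν (r + 1)| ≤ C ^ 2 := by
      rw [div_le_iff₀ (abs_pos.mpr hν.ne)]
      have h4 := hD.bd ν hν.mem i
      have h5 := hD.lb ν hν.mem (r + 1) hν.ne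
      calc |ν i| ≤ C * 1 := by linarith
        _ ≤ C * (C * |ν (r + 1)|) := by gcongr
        _ = C ^ 2 * |ν (r + 1)| := by ring
    have h6 : |τ i - a i| ≤ ρ := by
      rw [abs_of_nonneg (by linarith [(hτ i hi').1])]
      have := hI.wd i hi'
      linarith [(hτ i hi').2]
    exact mul_le_mul h3 h6 (abs_nonneg _) (by positivity)
  calc |∑ i ∈ Finset.range (r + 1), -(ν i / ν (r + 1)) * (τ i - a i)|
      ≤ ∑ i ∈ Finset.range (r + 1), |-(ν i / ν (r + 1)) * (τ i - a i)| :=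
        Finset.abs_sum_le_sum_abs _ _
    _ ≤ ∑ _i ∈ Finset.range (r + 1), C ^ 2 * ρ := Finset.sum_le_sum h2
    _ = (r + 1 : ℕ) * (C ^ 2 * ρ) := by rw [Finset.sum_const, Finset.card_range, nsmul_eq_mul]
    _ ≤ (n : ℝ) * (C ^ 2 * ρ) := by
        have : ((r + 1 : ℕ) : ℝ) ≤ (n : ℝ) := by exact_mod_cast hr.le
        have hρ := hI.pos
        gcongr
    _ = C ^ 2 * n * ρ := by ring

include hr in
/-- (F1) -/
lemma bt_near {ν μ : ℕ → ℝ} (hν : Bs D r ν) (hμ : Bs D r μ) (h : bt r ν s = bt r μ s)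
    {τ : ℕ → ℝ} (hτ : Box r a b τ) : |bt r ν τ - bt r μ a| ≤ (C ^ 2 * n + 1) * ρ := by
  have h1 := bt_var hD hr hI hν hτ
  have h2 := bt_zero hD hI hμ hν h.symm (box_a hI)
  calc |bt r ν τ - bt r μ a| = |(bt r ν τ - bt r ν a) + (bt r ν a - bt r μ a)| := by ring_nf
    _ ≤ |bt r ν τ - bt r ν a| + |bt r ν a - bt r μ a| := abs_add_le _ _
    _ ≤ C ^ 2 * n * ρ + ρ := add_le_add h1 h2
    _ = (C ^ 2 * n + 1) * ρ := by ring

end node

lemma supp_of_zero {r : ℕ} {ν : ℕ → ℝ} (h : Supp (r + 1 + 1) ν) (h0 : ν (r + 1) = 0) :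
    Supp (r + 1) ν := by
  intro i hi
  rcases hi.eq_or_lt with rfl | h'
  · exact h0
  · exact h i h'

/-- the last position and the box of a point of the box of a child -/
lemma box_child {r : ℕ} {a b τ : ℕ → ℝ} {p p' : ℝ}
    (h : ∀ i ≤ r + 1, Function.update a (r + 1) p i ≤ τ i ∧ τ i ≤ Function.update b (r + 1) p' i) :
    Box r a b τ ∧ p ≤ τ (r + 1) ∧ τ (r + 1) ≤ p' := by
  refine ⟨fun i hi => ?_, ?_⟩
  · have h1 := h i (by omega)
    have h2 : i ≠ r + 1 := by omega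
    rwa [Function.update_of_ne h2, Function.update_of_ne h2] at h1
  · have h1 := h (r + 1) le_rfl
    rwa [Function.update_self, Function.update_self] at h1

/-- criterion for a cell -/
lemma cell_of {n : ℕ} {D : Finset (ℕ → ℝ)} {C : ℝ} (hD : Good n D C) {r : ℕ}
    {A A' : ℝ} {s a b : ℕ → ℝ} {ρ : ℝ} (hI : Inv D r A s a b ρ) (hA' : 0 < A')
    {σ p p' K : ℝ} (hK : 1 ≤ K) (hpp : p ≤ p') (hw : p' ≤ p + K * ρ) (hAK : A' * K ≤ A)
    (hz : ∀ ν, Bs D r ν → bt r ν s = σ → ∀ τ, Box r a b τ → ∀ y, p ≤ y → y ≤ p' →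
      C * |y - bt r ν τ| ≤ K * ρ)
    (hlo : ∀ ν, Bs D r ν → bt r ν s < σ → ∀ τ, Box r a b τ → ∀ y, p ≤ y → y ≤ p' →
      C * (A' * (K * ρ)) ≤ y - bt r ν τ)
    (hhi : ∀ ν, Bs D r ν → σ < bt r ν s → ∀ τ, Box r a b τ → ∀ y, p ≤ y → y ≤ p' →
      C * (A' * (K * ρ)) ≤ bt r ν τ - y) : Cell D r A' s a b σ p p' := by
  have hC : 0 < C := lt_of_lt_of_le one_pos hD.one_le
  have hρ := hI.pos
  have hKρ : 0 < K * ρ := mul_pos (lt_of_lt_of_le one_pos hK) hρ
  have hρK : ρ ≤ K * ρ := by nlinarith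
  refine ⟨K * ρ, hKρ, ?_, ?_, ?_, ?_⟩
  · intro ν hν hsupp h0 τ hτ
    obtain ⟨hb, hy1, hy2⟩ := box_child hτ
    by_cases hne : ν (r + 1) = 0
    · rw [pr_succ, hne, zero_mul, add_zero]
      refine (hI.zero ν hν (supp_of_zero hsupp hne) ?_ τ hb).trans hρK
      rwa [pr_succ, hne, zero_mul, add_zero, pr_update] at h0
    · have hB : Bs D r ν := ⟨hν, hsupp, hne⟩
      rw [pr_eq r ν _ hne, bt_update, Function.update_self] at h0
      have hσ : bt r ν s = σ := by
        have := (mul_eq_zero.mp h0).resolve_left hne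
        linarith
      rw [pr_eq r ν τ hne, abs_mul]
      calc |ν (r + 1)| * |τ (r + 1) - bt r ν τ| ≤ C * |τ (r + 1) - bt r ν τ| := by
            gcongr
            exact hD.bd ν hν (r + 1)
        _ ≤ K * ρ := hz ν hB hσ τ hb _ hy1 hy2
  · intro ν hν hsupp h0 τ hτ
    obtain ⟨hb, hy1, hy2⟩ := box_child hτ
    by_cases hne : ν (r + 1) = 0
    · rw [pr_succ, hne, zero_mul, add_zero]
      rw [pr_succ, hne, zero_mul, add_zero, pr_update] at h0
      have h1 := hI.one ν hν (supp_of_zero hsupp hne) h0 τ hb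
      calc A' * (K * ρ) = (A' * K) * ρ := by ring
        _ ≤ A * ρ := by gcongr
        _ ≤ _ := h1
    · have hB : Bs D r ν := ⟨hν, hsupp, hne⟩
      have hlb := hD.lb ν hν (r + 1) hne
      have hpos : 0 < A' * (K * ρ) := mul_pos hA' hKρ
      rw [pr_eq r ν _ hne, bt_update, Function.update_self] at h0
      rw [pr_eq r ν τ hne]
      rcases lt_or_gt_of_ne hne with hneg | hpos'
      · have h1 : σ < bt r ν s := by
          by_contra hcon
          push Not at hcon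
          nlinarith
        have h2 := hhi ν hB h1 τ hb _ hy1 hy2
        rw [abs_of_neg hneg] at hlb
        have h3 : ν (r + 1) * (τ (r + 1) - bt r ν τ) = (-ν (r + 1)) * (bt r ν τ - τ (r + 1)) := by
          ring
        rw [h3]
        calc A' * (K * ρ) = 1 * (A' * (K * ρ)) := by ring
          _ ≤ (C * -ν (r + 1)) * (A' * (K * ρ)) := by gcongr
          _ = (-ν (r + 1)) * (C * (A' * (K * ρ))) := by ring
          _ ≤ (-ν (r + 1)) * (bt r ν τ - τ (r + 1)) :=
              mul_le_mul_of_nonneg_left h2 (by linarith)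
      · have h1 : bt r ν s < σ := by
          by_contra hcon
          push Not at hcon
          nlinarith
        have h2 := hlo ν hB h1 τ hb _ hy1 hy2
        rw [abs_of_pos hpos'] at hlb
        calc A' * (K * ρ) = 1 * (A' * (K * ρ)) := by ring
          _ ≤ (C * ν (r + 1)) * (A' * (K * ρ)) := by gcongr
          _ = ν (r + 1) * (C * (A' * (K * ρ))) := by ring
          _ ≤ ν (r + 1) * (τ (r + 1) - bt r ν τ) :=
              mul_le_mul_of_nonneg_left h2 hpos'.le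
  · intro i hi
    rcases eq_or_ne i (r + 1) with rfl | h
    · rw [Function.update_self, Function.update_self]
      exact hpp
    · rw [Function.update_of_ne h, Function.update_of_ne h]
      exact hI.le i (by omega)
  · intro i hi
    rcases eq_or_ne i (r + 1) with rfl | h
    · rw [Function.update_self, Function.update_self]
      exact hw
    · rw [Function.update_of_ne h, Function.update_of_ne h]
      have := hI.wd i (by omega)
      linarith

/-- the difference functional -/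
def dr (r : ℕ) : ℕ → ℝ := fun i => if i = r then (1 : ℝ) else if i = r + 1 then -1 else 0

lemma bs_dr {n : ℕ} {D : Finset (ℕ → ℝ)} {C : ℝ} (hD : Good n D C) {r : ℕ} (hr : r + 1 < n) :
    Bs D r (dr r) := by
  refine ⟨hD.diff r hr, ?_, ?_⟩
  · intro i hi
    rw [dr, if_neg (by omega), if_neg (by omega)]
  · rw [dr, if_neg (by omega), if_pos rfl]
    norm_num

lemma bt_dr (r : ℕ) (t : ℕ → ℝ) : bt r (dr r) t = t r := by
  have h1 : dr r (r + 1) = -1 := by rw [dr, if_neg (by omega), if_pos rfl]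
  have h2 : pr (r + 1) (dr r) t = t r := by
    rw [pr, Finset.sum_range_succ]
    have h3 : ∑ i ∈ Finset.range r, dr r i * t i = 0 := by
      refine Finset.sum_eq_zero fun i hi => ?_
      rw [Finset.mem_range] at hi
      rw [dr, if_neg (by omega), if_neg (by omega), zero_mul]
    rw [h3, dr, if_pos rfl]
    ring
  rw [bt, h1, h2]
  ring

theorem chain : ChainStm := by
  classical
  intro n D C hD r hr A' hA'
  have hC : 0 < C := lt_of_lt_of_le one_pos hD.one_le
  have hC1' : (1 : ℝ) ≤ C := hD.one_le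
  set C1 : ℝ := C ^ 2 * n + 1 with hC1
  have hC1p : 1 ≤ C1 := by
    have : 0 ≤ C ^ 2 * (n : ℝ) := by positivity
    rw [hC1]; linarith
  set G : ℝ := C1 + C * A' + 1 with hG
  have hCA : 0 < C * A' := mul_pos hC hA'
  have hG1 : 1 ≤ G := by rw [hG]; linarith
  set G' : ℝ := C * (G + C1) + 2 * G with hG'
  have hG'1 : 1 ≤ G' := by
    have : 0 < C * (G + C1) := mul_pos hC (by linarith)
    rw [hG']; linarith
  set A : ℝ := C * A' * G' + G + C1 + 2 * G with hA
  have hCAG : 0 < C * A' * G' := mul_pos hCA (by linarith)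
  have hApos : 0 < A := by rw [hA]; linarith
  refine ⟨A, hApos, ?_⟩
  intro L s a b ρ hI hL P hstart hext
  have hρ := hI.pos
  set V : Finset ℝ := ((D.filter (fun ν => Supp (r + 1 + 1) ν ∧ ν (r + 1) ≠ 0)).image
    (fun ν => bt r ν s)).filter (fun v => v ≤ s r) with hV
  have hVmem : ∀ v, v ∈ V ↔ (∃ ν, Bs D r ν ∧ bt r ν s = v) ∧ v ≤ s r := by
    intro v
    rw [hV, Finset.mem_filter, Finset.mem_image]
    constructor
    · rintro ⟨⟨ν, hν, hv⟩, h⟩
      rw [Finset.mem_filter] at hν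
      exact ⟨⟨ν, ⟨hν.1, hν.2.1, hν.2.2⟩, hv⟩, h⟩
    · rintro ⟨⟨ν, hν, hv⟩, h⟩
      exact ⟨⟨ν, Finset.mem_filter.mpr ⟨hν.mem, hν.supp, hν.ne⟩, hv⟩, h⟩
  have hSV : s r ∈ V := (hVmem _).mpr ⟨⟨dr r, bs_dr hD hr, bt_dr r s⟩, le_rfl⟩
  have hrep : ∀ v : ℝ, ∃ cv : ℝ, v ∈ V → (∃ ν, Bs D r ν ∧ bt r ν s = v ∧ cv = bt r ν a) ∧
      (v = s r → cv = a r) := by
    intro v
    by_cases hv : v ∈ V
    · by_cases hvs : v = s r
      · exact ⟨a r, fun _ => ⟨⟨dr r, bs_dr hD hr, by rw [bt_dr, hvs], (bt_dr r a).symm⟩,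
          fun _ => rfl⟩⟩
      · obtain ⟨⟨ν, hν, hνv⟩, _⟩ := (hVmem v).mp hv
        exact ⟨bt r ν a, fun _ => ⟨⟨ν, hν, hνv, rfl⟩, fun h => absurd h hvs⟩⟩
    · exact ⟨0, fun h => absurd h hv⟩
  choose c hc using hrep
  have hcS : c (s r) = a r := (hc (s r) hSV).2 rfl
  have hgap : ∀ v ∈ V, ∀ w ∈ V, v < w → c v + 2 * (G * ρ) ≤ c w := by
    intro v hv w hw hvw
    obtain ⟨ν, hν, h1, h2⟩ := (hc v hv).1
    obtain ⟨μ, hμ, h3, h4⟩ := (hc w hw).1
    have h5 := bt_one hD hI hν hμ (by rw [h1, h3]; exact hvw) (box_a hI)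
    rw [← h2, ← h4] at h5
    have h6 : 2 * G * ρ ≤ A * ρ := by
      have : 2 * G ≤ A := by rw [hA]; linarith
      gcongr
    linarith
  -- values near the centre
  have hnear : ∀ ν, Bs D r ν → ∀ τ, Box r a b τ → bt r ν s ∈ V →
      |bt r ν τ - c (bt r ν s)| ≤ C1 * ρ := by
    intro ν hν τ hτ hv
    obtain ⟨μ, hμ, h1, h2⟩ := (hc _ hv).1
    rw [h2]
    exact bt_near hD hr hI hν hμ h1.symm hτ
  have key := cover (V := V) (c := c) (S := s r) (L := L) (G := G) (ρ := ρ) hρ (by linarith)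
    (fun v hv => ((hVmem v).mp hv).2) hSV hgap (fun σ p p' => Cell D r A' s a b σ p p') P
    ?_ ?_ hstart hext (by rw [hcS]; exact hL r le_rfl) (b r) (by rw [hcS]; exact hI.le r le_rfl)
    (by
      rw [hcS]
      have := hI.wd r le_rfl
      nlinarith)
  · rw [hcS] at key
    exact key
  · -- sticky cells
    intro v hv p p' _ hpp h1 h2
    obtain ⟨μ, hμ, hμv, hμc⟩ := (hc v hv).1
    have hnμ : ∀ τ, Box r a b τ → |bt r μ τ - c v| ≤ C1 * ρ := by
      intro τ hτ
      have := hnear μ hμ τ hτ (by rw [hμv]; exact hv)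
      rwa [hμv] at this
    refine cell_of hD hI hA' hG'1 hpp ?_ ?_ ?_ ?_ ?_
    · have h3 : 2 * G * ρ ≤ G' * ρ := by
        have : 2 * G ≤ G' := by
          have : 0 < C * (G + C1) := mul_pos hC (by linarith)
          rw [hG']; linarith
        gcongr
      linarith
    · have : A' * G' ≤ C * A' * G' := by
        have : 0 ≤ A' * G' := by positivity
        nlinarith
      rw [hA]; linarith
    · intro ν hν hνv τ hτ y hy1 hy2
      have h3 := hnear ν hν τ hτ (by rw [hνv]; exact hv)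
      rw [hνv] at h3
      have h4 : |y - bt r ν τ| ≤ (G + C1) * ρ := by
        rw [abs_le] at h3 ⊢
        constructor <;> nlinarith [h3.1, h3.2]
      calc C * |y - bt r ν τ| ≤ C * ((G + C1) * ρ) := by gcongr
        _ ≤ G' * ρ := by
            rw [hG']
            have : 0 ≤ 2 * G * ρ := by positivity
            nlinarith
    · intro ν hν hνv τ hτ y hy1 hy2
      have h3 := bt_one hD hI hν hμ (by rw [hμv]; exact hνv) hτ
      have h4 := abs_le.mp (hnμ τ hτ)
      have h5 : A * ρ = C * (A' * (G' * ρ)) + G * ρ + C1 * ρ + 2 * G * ρ := by rw [hA]; ring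
      have h6 : 0 ≤ 2 * G * ρ := by positivity
      linarith [h4.1, h4.2]
    · intro ν hν hνv τ hτ y hy1 hy2
      have h3 := bt_one hD hI hμ hν (by rw [hμv]; exact hνv) hτ
      have h4 := abs_le.mp (hnμ τ hτ)
      have h5 : A * ρ = C * (A' * (G' * ρ)) + G * ρ + C1 * ρ + 2 * G * ρ := by rw [hA]; ring
      have h6 : 0 ≤ 2 * G * ρ := by positivity
      linarith [h4.1, h4.2]
  · -- small cells
    intro σ p p' hσ _ hpp hw hcond
    have hbig : C * (A' * (1 * ρ)) + C1 * ρ ≤ G * ρ := by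
      rw [hG]
      nlinarith
    refine cell_of hD hI hA' le_rfl hpp (by linarith) ?_ ?_ ?_ ?_
    · have h1 : A' * 1 ≤ C * A' * G' := by
        have h2 : A' ≤ C * A' := by nlinarith
        have h3 : C * A' ≤ C * A' * G' := by nlinarith
        linarith
      rw [hA]; linarith
    · intro ν hν hνv τ hτ y hy1 hy2
      have hv : σ ∈ V := (hVmem σ).mpr ⟨⟨ν, hν, hνv⟩, hσ.le⟩
      exact absurd rfl (hcond σ hv).1
    · intro ν hν hνv τ hτ y hy1 hy2
      have hv : bt r ν s ∈ V := (hVmem _).mpr ⟨⟨ν, hν, rfl⟩, hνv.le.trans hσ.le⟩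
      have h1 := (hcond _ hv).2.1 hνv
      have h2 := abs_le.mp (hnear ν hν τ hτ hv)
      linarith [h2.1, h2.2]
    · intro ν hν hνv τ hτ y hy1 hy2
      by_cases hle : bt r ν s ≤ s r
      · have hv : bt r ν s ∈ V := (hVmem _).mpr ⟨⟨ν, hν, rfl⟩, hle⟩
        have h1 := (hcond _ hv).2.2 hνv
        have h2 := abs_le.mp (hnear ν hν τ hτ hv)
        linarith [h2.1, h2.2]
      · push Not at hle
        have h1 := bt_one hD hI (bs_dr hD hr) hν (by rw [bt_dr]; exact hle) hτ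
        rw [bt_dr] at h1
        have h2 := (hcond (s r) hSV).2.2 hσ
        rw [hcS] at h2
        have h3 := (hτ r le_rfl).1
        have h4 : G * ρ ≤ A * ρ + G * ρ := by
          have : 0 ≤ A * ρ := by positivity
          linarith
        have h5 : 0 ≤ C1 * ρ := by positivity
        linarith

end Pool.Agent.W991.WR.Chain
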